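import Pool.Agent.H75.ST.Stmt

/-! Module UNI: isomorphisms respect the directions. -/

set_option autoImplicit false

open Set Pool.Agent.TK

namespace Pool.Agent.ST

private lemma image_symm_image16 (h : Equiv.Perm ℕ) (B : Set ℕ) : h.symm '' (h '' B) = B := by
  rw [← image_comp]; simp

private lemma image_image_symm16 (h : Equiv.Perm ℕ) (B : Set ℕ) : h '' (h.symm '' B) = B := by
  rw [← image_comp]; simp

private lemma isoH_symm16 {C : Type} {h : Equiv.Perm ℕ} {M N : St C} (H : IsoH h M N) :
    IsoH h.symm N M := by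
  refine ⟨fun u v => ?_, fun l => ?_⟩
  · have := H.1 (h.symm u) (h.symm v); simpa using this.symm
  · have := H.2 (l.map h.symm)
    rw [List.map_map] at this
    simpa using this.symm

theorem pf_UNI {C : Type} [MeasurableSpace C] {c0 : C} (hLUN2 : LUN2 C c0) (hITR : ITR C c0)
    (hRPF : RPF C c0) (hLDR2 : LDR2 C c0) : UNI C c0 := by
  have _ := hRPF
  have _ := hLDR2
  intro b X M w E D a R r ld y z hy hz w' w'' hd' hd'' h hH F hF
  obtain ⟨by1, -⟩ := hLUN2 b X M w E D a R r ld y hy w' hd'
  obtain ⟨-, bz2⟩ := hLUN2 b X M w E D a R r ld z hz w'' hd''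
  obtain ⟨t1, -, -, -⟩ := hITR h _ _ hH
  obtain ⟨-, -, -, s4⟩ := hITR h.symm _ _ (isoH_symm16 hH)
  have hdir : IsDir (repl c0 M a D R z) (fun B => h '' (w' (h.symm '' B))) := by
    refine ⟨fun B hB => ?_, fun B B' hB' hBB' => ?_⟩
    · have := t1 _ _ (hd'.1.1 (h.symm '' B) (hB.image _))
      rwa [image_image_symm16] at this
    · exact image_mono (hd'.1.2 _ _ (hB'.image _) (image_mono hBB'))
  have hw := bz2 _ hdir (by
    intro B hB i hSm
    have := s4 _ _ hSm
    simp only [image_symm_image16] at this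
    exact by1 _ (hB.image _) i this) (h '' F) (hF.image _)
  simp only [image_symm_image16] at hw
  exact hw.symm

end Pool.Agent.ST
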